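import Pool.Agent.N343.AM.Stm

/-!
Leaf AM/SHA of the project of helper343: shadowing a sequence in Hamming distance.
-/

open Filter Topology Finset

namespace Pool.Agent.N561.AM

open Pool.Agent.N343.AM

lemma win_length (x : ℕ → Bool) (i n : ℕ) : (win x i n).length = n := by simp [win]

lemma win_get (x : ℕ → Bool) (i n j : ℕ) (h : j < n) : (win x i n)[j]? = some (x (i + j)) := by
  simp [win, h]

lemma win_add (x : ℕ → Bool) (i a b : ℕ) : win x i (a + b) = win x i a ++ win x (i + a) b := by
  unfold win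
  rw [List.range_add, List.map_append, List.map_map]
  congr 1
  apply List.map_congr_left
  intro j _
  simp [Nat.add_assoc]

lemma star_append {W : Set Wd} {s t : Wd} (hs : s ∈ star W) (ht : t ∈ star W) : s ++ t ∈ star W := by
  obtain ⟨l, hl, rfl⟩ := hs
  obtain ⟨l', hl', rfl⟩ := ht
  refine ⟨l ++ l', fun w hw => ?_, by simp⟩
  rcases List.mem_append.1 hw with h | h
  · exact hl w h
  · exact hl' w h

lemma star_fac {W : Set Wd} {s : Wd} (hs : s ∈ star W) : s ∈ Fac W := ⟨[], [], by simpa using hs⟩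

lemma hs_add (x y : ℕ → Bool) (a b : ℕ) :
    hs x y (a + b) = hs x y a + hs (fun i => x (a + i)) (fun i => y (a + i)) b := by
  unfold hs
  rw [card_filter, card_filter, card_filter, sum_range_add]

lemma hs_mono (x y : ℕ → Bool) {a b : ℕ} (h : a ≤ b) : hs x y a ≤ hs x y b :=
  card_le_card (filter_subset_filter _ (range_subset_range.2 h))

lemma hs_le (x y : ℕ → Bool) (n : ℕ) : hs x y n ≤ n :=
  (card_filter_le _ _).trans (card_range n).le

lemma hs_tri (x y z : ℕ → Bool) (n : ℕ) : hs x z n ≤ hs x y n + hs y z n := by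
  unfold hs
  refine (card_le_card ?_).trans (card_union_le _ _)
  intro i hi
  rw [mem_filter] at hi
  rw [mem_union, mem_filter, mem_filter]
  by_cases h : x i = y i
  · exact Or.inr ⟨hi.1, fun h2 => hi.2 (h.trans h2)⟩
  · exact Or.inl ⟨hi.1, h⟩

lemma hl_win (x y : ℕ → Bool) (s T n : ℕ) (h : n ≤ T) :
    hl (win x s T) (win y s T) n = hs (fun i => x (s + i)) (fun i => y (s + i)) n := by
  unfold hl hs
  congr 1
  apply filter_congr
  intro i hi
  have hi' := mem_range.1 hi
  rw [win_get _ _ _ _ (by omega), win_get _ _ _ _ (by omega)]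
  simp

lemma hs_blocks (z w : ℕ → Bool) (L B : ℕ) :
    hs z w (B * L) = ∑ b ∈ range B, hs (fun i => z (b * L + i)) (fun i => w (b * L + i)) L := by
  induction B with
  | zero => simp [hs]
  | succ B ih => rw [Nat.succ_mul, hs_add, ih, sum_range_succ]

theorem main (hB : S_BLK) (hC : S_CHN) (hE : S_EMB) (hK : S_CLO) : S_SHA := by
  intro W P m hS k L hL z
  classical
  have hLpos : 0 < L := lt_of_lt_of_le (by positivity) hL
  set C : ℕ := 4 * ((m k) ^ 2 + m k + 1) with hCdef
  have h1 : ∀ b : ℕ, ∃ v ∈ star (W k), v.length = L ∧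
      (win z (b * L) L ∈ Fac (W k) → hl (win z (b * L) L) v L ≤ C) := fun b =>
    hB (W k) (m k) L (hS.lv k) hL _ (win_length _ _ _)
  choose vb hv1 hv2 hv3 using h1
  set w : ℕ → Bool := fun i => (vb (i / L)).getD (i % L) false with hwdef
  have hw : ∀ b, win w (b * L) L = vb b := by
    intro b
    apply List.ext_getElem
    · rw [win_length, hv2]
    · intro j hj1 hj2
      have hj : j < L := by rwa [win_length] at hj1
      have e1 : (b * L + j) / L = b := by
        rw [Nat.mul_comm, Nat.mul_add_div hLpos, Nat.div_eq_of_lt hj, add_zero]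
      have e2 : (b * L + j) % L = j := by
        rw [Nat.mul_comm, Nat.mul_add_mod, Nat.mod_eq_of_lt hj]
      simp only [win, List.getElem_map, List.getElem_range, hwdef, e1, e2]
      rw [List.getD_eq_getElem _ _ hj2]
  have hstar : ∀ q, win w 0 (q * L) ∈ star (W k) := by
    intro q
    induction q with
    | zero => exact ⟨[], by simp, by simp [win]⟩
    | succ q ih =>
      rw [Nat.succ_mul, win_add, zero_add, hw]
      exact star_append ih (hv1 q)
  have key : ∀ q : ℕ, ∃ x ∈ XX W, ∀ n ≤ q * L, 2 ^ k * hs w x n ≤ n := by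
    intro q
    set T := q * L with hT
    obtain ⟨v', g1, g2, g3⟩ := hC W P m hS k (k + T) (Nat.le_add_right _ _) (win w 0 T)
      (star_fac (hstar q))
    rw [win_length] at g2 g3
    have hm : 2 * T ≤ m (k + T + 1) := by
      have h2 := hS.gr (k + T)
      have h3 : 1 ≤ DD (P (k + T)) (m (k + T)) := by
        unfold DD
        omega
      have h4 : 2 ^ (k + T + 4) * 1 ≤ m (k + T + 1) := (Nat.mul_le_mul_left _ h3).trans h2
      have h5 : T < 2 ^ T := Nat.lt_two_pow_self
      have h6 : 2 ^ (T + 4) ≤ 2 ^ (k + T + 4) := Nat.pow_le_pow_right (by norm_num) (by omega)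
      have h7 : 2 ^ (T + 4) = 16 * 2 ^ T := by rw [pow_add]; ring
      omega
    obtain ⟨-, ⟨x, hx1, hx2⟩, -⟩ := hE W P m hS (k + T) v' g1 (by rw [g2]; exact hm)
    rw [g2] at hx2
    refine ⟨x, hx1, fun n hn => ?_⟩
    have h8 := g3 n hn
    rw [← hx2, hl_win _ _ _ _ _ hn] at h8
    simpa using h8
  choose y hy1 hy2 using key
  have hXc : IsCompact (XX W) := (hK W P m hS).1.isCompact
  obtain ⟨y0, hy0, φ, hφ, hlim⟩ := hXc.tendsto_subseq hy1
  refine ⟨y0, hy0, fun n => ?_⟩
  have hev : ∀ᶠ q in atTop, ∀ i ∈ range n, y (φ q) i = y0 i := by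
    rw [eventually_all_finset]
    intro i _
    have h2 := tendsto_pi_nhds.1 hlim i
    rw [nhds_discrete, tendsto_pure] at h2
    exact h2
  obtain ⟨q, hq1, hq2⟩ := (hev.and (eventually_ge_atTop n)).exists
  have hqn : n ≤ φ q * L := by
    have h2 : n ≤ φ q := hq2.trans (hφ.id_le q)
    exact h2.trans (Nat.le_mul_of_pos_right _ hLpos)
  have hwy : 2 ^ k * hs w y0 n ≤ n := by
    have h2 := hy2 (φ q) n hqn
    have h3 : hs w (y (φ q)) n = hs w y0 n := by
      unfold hs
      congr 1
      apply filter_congr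
      intro i hi
      rw [hq1 i hi]
    rwa [h3] at h2
  -- the number of blocks
  set B : ℕ := (n + L - 1) / L with hBdef
  have hB1 : n ≤ B * L ∧ B * L ≤ n + L := by
    have h2 := Nat.div_add_mod (n + L - 1) L
    have h3 := Nat.mod_lt (n + L - 1) hLpos
    rw [← hBdef, Nat.mul_comm] at h2
    omega
  have hB2 : ∀ b < B, b * L < n := by
    intro b hb
    have h2 : (b + 1) * L ≤ n + L - 1 := (Nat.le_div_iff_mul_le hLpos).1 hb
    rw [Nat.add_mul, one_mul] at h2
    omega
  have hzw : hs z w n ≤ B * C + L * badc (Fac (W k)) z L n := by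
    refine (hs_mono z w hB1.1).trans ?_
    rw [hs_blocks]
    have h2 : ∀ b ∈ range B, hs (fun i => z (b * L + i)) (fun i => w (b * L + i)) L ≤
        C + L * (if win z (b * L) L ∉ Fac (W k) then 1 else 0) := by
      intro b _
      by_cases hb : win z (b * L) L ∈ Fac (W k)
      · have h3 := hv3 b hb
        rw [← hw b, hl_win _ _ _ _ _ le_rfl] at h3
        simpa [hb] using h3
      · have h3 := hs_le (fun i => z (b * L + i)) (fun i => w (b * L + i)) L
        simp only [hb, not_false_eq_true, if_true, mul_one]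
        omega
    refine (sum_le_sum h2).trans ?_
    rw [sum_add_distrib, sum_const, card_range, smul_eq_mul, ← mul_sum, ← card_filter]
    refine Nat.add_le_add_left (Nat.mul_le_mul_left _ ?_) _
    unfold badc
    refine card_le_card_of_injOn (fun b => b * L) ?_ ?_
    · intro b hb
      simp only [coe_filter, mem_range, Set.mem_ofPred_eq] at hb ⊢
      exact ⟨hB2 b hb.1, hb.2⟩
    · intro a _ b _ hab
      exact Nat.eq_of_mul_eq_mul_right hLpos hab
  have hfin : hs z y0 n ≤ B * C + L * badc (Fac (W k)) z L n + hs w y0 n :=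
    (hs_tri z w y0 n).trans (Nat.add_le_add_right hzw _)
  have r1 : (hs z y0 n : ℝ) ≤ B * C + L * badc (Fac (W k)) z L n + hs w y0 n := by
    exact_mod_cast hfin
  have r2 : (hs w y0 n : ℝ) ≤ n / 2 ^ k := by
    rw [le_div_iff₀ (by positivity)]
    have h2 : ((2 ^ k * hs w y0 n : ℕ) : ℝ) ≤ n := by exact_mod_cast hwy
    push_cast at h2
    linarith
  have r3 : (B : ℝ) ≤ n / L + 1 := by
    have hL' : (0 : ℝ) < L := by exact_mod_cast hLpos
    have h2 : ((B * L : ℕ) : ℝ) ≤ ((n + L : ℕ) : ℝ) := by exact_mod_cast hB1.2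
    push_cast at h2
    have h3 : (B : ℝ) ≤ (n + L) / L := by
      rw [le_div_iff₀ hL']
      exact h2
    rwa [add_div, div_self hL'.ne'] at h3
  have r4 : (B : ℝ) * C ≤ (n / L + 1) * (4 * ((m k) ^ 2 + m k + 1)) := by
    have h2 : (C : ℝ) = 4 * ((m k) ^ 2 + m k + 1) := by rw [hCdef]; push_cast; ring
    rw [← h2]
    exact mul_le_mul_of_nonneg_right r3 (by positivity)
  linarith

end Pool.Agent.N561.AM
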